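import Mathlib.NumberTheory.Fermat
import Mathlib.NumberTheory.Padics.PadicVal.Basic
import Mathlib.Tactic

/-!
# Small nontrivial `μ`-Sondow numbers

For every integer `μ ∉ {0, ±1, ±2, 4, 16}` there is a `μ`-Sondow number in `[2, |μ|]`, except
possibly when `μ = 2^(2^k)` with `k ≥ 5`, `2^(2^k) + 1` a (Fermat) prime and `k` outside of
some residue classes.
-/

set_option autoImplicit false

namespace Pool.Agent.Results.MP_f2d551_nt.UpToFermatPrimes

/-- `n` is a `μ`-Sondow number: `n` is positive and for every prime `p` dividing `n`, with `p^s` the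
exact power of `p` dividing `n`, one has `p^s ∣ n/p + μ`. -/
def IsSondow (μ : ℤ) (n : ℕ) : Prop :=
  0 < n ∧ ∀ p : ℕ, p.Prime → p ∣ n →
    ((p ^ padicValNat p n : ℕ) : ℤ) ∣ ((n / p : ℕ) : ℤ) + μ

lemma sondow_prime {μ : ℤ} {p : ℕ} (hp : p.Prime) (h : (p : ℤ) ∣ μ + 1) : IsSondow μ p := by
  refine ⟨hp.pos, fun q hq hqp => ?_⟩
  have hqe : q = p := (Nat.prime_dvd_prime_iff_eq hq hp).1 hqp
  subst hqe
  have : Fact q.Prime := ⟨hq⟩
  rw [padicValNat_self, pow_one, Nat.div_self hq.pos]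
  push_cast
  rwa [add_comm]

lemma sondow_two_pow {μ : ℤ} {v : ℕ} {m : ℤ} (hm : Odd m) (h : μ = 2 ^ v * m) :
    IsSondow μ (2 ^ (v + 1)) := by
  refine ⟨by positivity, fun q hq hqp => ?_⟩
  have hqe : q = 2 := (Nat.prime_dvd_prime_iff_eq hq Nat.prime_two).1 (hq.dvd_of_dvd_pow hqp)
  subst hqe
  rw [padicValNat.prime_pow, pow_succ, Nat.mul_div_cancel _ (by norm_num)]
  obtain ⟨r, rfl⟩ := hm
  refine ⟨r + 1, ?_⟩
  rw [h]
  push_cast
  ring

/-- A squarefree `n = ∏ l` is Sondow if the congruences hold. -/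
lemma sondow_list {μ : ℤ} (l : List ℕ) (hl : ∀ p ∈ l, p.Prime) (hnd : l.Nodup)
    (h : ∀ p ∈ l, (p : ℤ) ∣ ((l.prod / p : ℕ) : ℤ) + μ) : IsSondow μ l.prod := by
  refine ⟨List.prod_pos (fun p hp => (hl p hp).pos), fun q hq hqp => ?_⟩
  have hmem : q ∈ l := by
    obtain ⟨r, hr, hqr⟩ := (Nat.prime_iff.1 hq).dvd_prod_iff.1 hqp
    rwa [(Nat.prime_dvd_prime_iff_eq hq (hl r hr)).1 hqr]
  have hval : padicValNat q l.prod = 1 := by
    have hperm := List.perm_cons_erase hmem
    rw [hperm.prod_eq, List.prod_cons]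
    have hne : (l.erase q).prod ≠ 0 := by
      refine (List.prod_pos (fun p hp => (hl p (List.mem_of_mem_erase hp)).pos)).ne'
    have : Fact q.Prime := ⟨hq⟩
    rw [padicValNat.mul hq.ne_zero hne, padicValNat_self, padicValNat.eq_zero_of_not_dvd]
    intro hd
    obtain ⟨r, hr, hqr⟩ := (Nat.prime_iff.1 hq).dvd_prod_iff.1 hd
    have hre := (Nat.prime_dvd_prime_iff_eq hq (hl r (List.mem_of_mem_erase hr))).1 hqr
    subst hre
    exact (hnd.not_mem_erase) hr
  rw [hval, pow_one]
  exact h q hmem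

/-- Computation of `2^(2^k)` modulo `p` by repeated squaring. -/
def tw (p k : ℕ) : ℕ := (fun x => x * x % p)^[k] 2

lemma tw_eq (p k : ℕ) : ((2 : ZMod p) ^ (2 ^ k)) = ((tw p k : ℕ) : ZMod p) := by
  induction k with
  | zero => simp [tw]
  | succ k ih =>
    have h1 : tw p (k + 1) = tw p k * tw p k % p := by
      unfold tw
      rw [Function.iterate_succ_apply']
    rw [h1, pow_succ 2 k, pow_mul, ih]
    rw [ZMod.natCast_mod]
    push_cast
    ring

/-- Divisibility along an arithmetic progression of `k`. -/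
lemma tower_dvd {p a L c : ℕ} (hper : tw p (a + L) = tw p a) (hc : p ∣ c + tw p a) (j : ℕ) :
    (p : ℤ) ∣ (c : ℤ) + 2 ^ (2 ^ (a + L * j)) := by
  have hper' : (2 : ZMod p) ^ (2 ^ (a + L)) = (2 : ZMod p) ^ (2 ^ a) := by
    rw [tw_eq, tw_eq, hper]
  have key : ∀ j : ℕ, (2 : ZMod p) ^ (2 ^ (a + L * j)) = (2 : ZMod p) ^ (2 ^ a) := by
    intro j
    induction j with
    | zero => simp
    | succ j ih =>
      have h1 : a + L * (j + 1) = a + L + L * j := by ring
      calc (2 : ZMod p) ^ (2 ^ (a + L * (j + 1)))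
          = ((2 : ZMod p) ^ (2 ^ (a + L))) ^ (2 ^ (L * j)) := by
            rw [h1, pow_add 2 (a + L) (L * j), pow_mul]
        _ = ((2 : ZMod p) ^ (2 ^ a)) ^ (2 ^ (L * j)) := by rw [hper']
        _ = (2 : ZMod p) ^ (2 ^ (a + L * j)) := by rw [← pow_mul, ← pow_add 2 a (L * j)]
        _ = _ := ih
  rw [← ZMod.intCast_zmod_eq_zero_iff_dvd]
  have h2 : ((c + tw p a : ℕ) : ZMod p) = 0 := by
    rwa [ZMod.natCast_eq_zero_iff]
  push_cast at h2 ⊢
  rw [key j, tw_eq]
  exact h2

/-- The residue classes of `k` for which `2^(2^k)` is handled by a fixed `n`. -/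
def Covered (k : ℕ) : Prop :=
  k % 3 = 0 ∨ k % 10 = 3 ∨ k % 12 = 4 ∨ k % 20 = 4 ∨ k % 24 = 5 ∨ k % 24 = 10

lemma covered_sondow {k : ℕ} (hk : 3 ≤ k) (hc : Covered k) :
    ∃ n : ℕ, 2 ≤ n ∧ (n : ℤ) ≤ 2 ^ (2 ^ k) ∧ IsSondow (2 ^ (2 ^ k)) n := by
  have hsize : ∀ m n : ℕ, m ≤ k → n ≤ 2 ^ (2 ^ m) → (n : ℤ) ≤ 2 ^ (2 ^ k) := by
    intro m n hm hn
    have h1 : (2 : ℕ) ^ (2 ^ m) ≤ 2 ^ (2 ^ k) :=
      Nat.pow_le_pow_right (by norm_num) (Nat.pow_le_pow_right (by norm_num) hm)
    exact_mod_cast hn.trans h1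
  rcases Nat.lt_or_ge k 4 with hk4 | hk4
  · -- k = 3
    obtain rfl : k = 3 := by omega
    refine ⟨145, by norm_num, by norm_num, ?_⟩
    refine sondow_list [5, 29] (by intro p hp; fin_cases hp <;> norm_num) (by decide) ?_
    intro p hp
    fin_cases hp <;> norm_num
  rcases hc with hc | hc | hc | hc | hc | hc
  · -- k ≡ 0 mod 3, n = 5 * 29
    obtain ⟨j, rfl⟩ : ∃ j, k = 3 + 3 * j := ⟨(k - 3) / 3, by omega⟩
    refine ⟨145, by norm_num, hsize 3 _ (by omega) (by norm_num), ?_⟩
    refine sondow_list [5, 29] (by intro p hp; fin_cases hp <;> norm_num) (by decide) ?_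
    intro p hp
    fin_cases hp
    · exact tower_dvd (c := 29) (by decide) (by decide) j
    · exact tower_dvd (c := 5) (by decide) (by decide) j
  · -- k ≡ 3 mod 10, n = 97 * 353
    obtain ⟨j, rfl⟩ : ∃ j, k = 13 + 10 * j := ⟨(k - 13) / 10, by omega⟩
    refine ⟨34241, by norm_num, hsize 13 _ (by omega) ?_, ?_⟩
    · exact (show 34241 ≤ 2 ^ (2 ^ 4) by norm_num).trans
        (Nat.pow_le_pow_right (by norm_num) (Nat.pow_le_pow_right (by norm_num) (by norm_num)))
    refine sondow_list [97, 353] (by intro p hp; fin_cases hp <;> norm_num) (by decide) ?_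
    intro p hp
    fin_cases hp
    · exact tower_dvd (c := 353) (by decide) (by decide) j
    · exact tower_dvd (c := 97) (by decide) (by decide) j
  · -- k ≡ 4 mod 12, n = 3 * 11 * 19
    obtain ⟨j, rfl⟩ : ∃ j, k = 4 + 12 * j := ⟨(k - 4) / 12, by omega⟩
    refine ⟨627, by norm_num, hsize 4 _ (by omega) (by norm_num), ?_⟩
    refine sondow_list [3, 11, 19] (by intro p hp; fin_cases hp <;> norm_num) (by decide) ?_
    intro p hp
    fin_cases hp
    · exact tower_dvd (c := 209) (by decide) (by decide) j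
    · exact tower_dvd (c := 57) (by decide) (by decide) j
    · exact tower_dvd (c := 33) (by decide) (by decide) j
  · -- k ≡ 4 mod 20, n = 13 * 101
    obtain ⟨j, rfl⟩ : ∃ j, k = 4 + 20 * j := ⟨(k - 4) / 20, by omega⟩
    refine ⟨1313, by norm_num, hsize 4 _ (by omega) (by norm_num), ?_⟩
    refine sondow_list [13, 101] (by intro p hp; fin_cases hp <;> norm_num) (by decide) ?_
    intro p hp
    fin_cases hp
    · exact tower_dvd (c := 101) (by decide) (by decide) j
    · exact tower_dvd (c := 13) (by decide) (by decide) j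
  · -- k ≡ 5 mod 24, n = 248127
    obtain ⟨j, rfl⟩ : ∃ j, k = 5 + 24 * j := ⟨(k - 5) / 24, by omega⟩
    refine ⟨248127, by norm_num, hsize 5 _ (by omega) (by norm_num), ?_⟩
    refine sondow_list [3, 11, 73, 103] (by intro p hp; fin_cases hp <;> norm_num) (by decide) ?_
    intro p hp
    fin_cases hp
    · exact tower_dvd (c := 82709) (by decide) (by decide) j
    · exact tower_dvd (c := 22557) (by decide) (by decide) j
    · exact tower_dvd (c := 3399) (by decide) (by decide) j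
    · exact tower_dvd (c := 2409) (by decide) (by decide) j
  · -- k ≡ 10 mod 24, n = 429495
    obtain ⟨j, rfl⟩ : ∃ j, k = 10 + 24 * j := ⟨(k - 10) / 24, by omega⟩
    refine ⟨429495, by norm_num, hsize 5 _ (by omega) (by norm_num), ?_⟩
    refine sondow_list [3, 5, 11, 19, 137] (by intro p hp; fin_cases hp <;> norm_num) (by decide) ?_
    intro p hp
    fin_cases hp
    · exact tower_dvd (c := 143165) (by decide) (by decide) j
    · exact tower_dvd (c := 85899) (by decide) (by decide) j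
    · exact tower_dvd (c := 39045) (by decide) (by decide) j
    · exact tower_dvd (c := 22605) (by decide) (by decide) j
    · exact tower_dvd (c := 3135) (by decide) (by decide) j

/-- For every `μ ∉ {0, ±1, ±2, 4, 16}` some `n ∈ [2, |μ|]` is a `μ`-Sondow number, unless
`μ = 2^(2^k)` where `k ≥ 5` lies outside of the covered residue classes and `2^(2^k) + 1` is a
Fermat prime. -/
theorem result (μ : ℤ) (h0 : μ ∉ ({0, 1, -1, 2, -2, 4, 16} : Set ℤ))
    (hF : ∀ k : ℕ, 5 ≤ k → (2 ^ (2 ^ k) + 1).Prime → ¬ Covered k → μ ≠ 2 ^ (2 ^ k)) :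
    ∃ n : ℕ, 2 ≤ n ∧ (n : ℤ) ≤ |μ| ∧ IsSondow μ n := by
  simp only [Set.mem_insert_iff, Set.mem_singleton_iff, not_or] at h0
  obtain ⟨h00, h01, h0m1, h02, h0m2, h04, h016⟩ := h0
  -- case 1: a prime divides μ + 1 and is at most |μ|
  rcases le_or_gt μ (-3) with hneg | hpos
  · have h1 : (μ + 1).natAbs ≠ 1 := by omega
    obtain ⟨p, hp, hpd⟩ := Nat.exists_prime_and_dvd h1
    refine ⟨p, hp.two_le, ?_, sondow_prime hp (Int.natCast_dvd.2 hpd)⟩
    have h2 : p ≤ (μ + 1).natAbs := Nat.le_of_dvd (by omega) hpd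
    rw [abs_of_neg (by omega)]
    omega
  have hμ3 : 3 ≤ μ := by omega
  obtain ⟨m, rfl⟩ : ∃ m : ℕ, μ = m := ⟨μ.toNat, by omega⟩
  have hm3 : 3 ≤ m := by exact_mod_cast hμ3
  rw [abs_of_nonneg (by positivity)]
  by_cases hprime : (m + 1).Prime
  · -- μ + 1 prime
    obtain ⟨v, r, hr, hmv⟩ := Nat.exists_eq_two_pow_mul_odd (show m ≠ 0 by omega)
    rcases Nat.lt_or_ge r 3 with hr3 | hr3
    · -- μ is a power of two
      have hr1 : r = 1 := by
        obtain ⟨t, ht⟩ := hr
        omega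
      subst hr1
      rw [mul_one] at hmv
      subst hmv
      have hv0 : v ≠ 0 := by
        rintro rfl
        norm_num at hm3
      obtain ⟨k, rfl⟩ := Nat.pow_of_pow_add_prime (by norm_num) hv0 hprime
      have hk0 : k ≠ 0 := by
        rintro rfl
        norm_num at h02
      have hk1 : k ≠ 1 := by
        rintro rfl
        norm_num at h04
      have hk2 : k ≠ 2 := by
        rintro rfl
        norm_num at h016
      have hcov : Covered k := by
        by_contra hnc
        rcases Nat.lt_or_ge k 5 with hk | hk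
        · have : k = 3 ∨ k = 4 := by omega
          rcases this with rfl | rfl
          · exact hnc (by unfold Covered; norm_num)
          · exact hnc (by unfold Covered; norm_num)
        · exact hF k hk hprime hnc (by push_cast; rfl)
      obtain ⟨n, hn2, hnle, hn⟩ := covered_sondow (show 3 ≤ k by omega) hcov
      refine ⟨n, hn2, ?_, ?_⟩
      · push_cast; exact hnle
      · push_cast; exact hn
    · refine ⟨2 ^ (v + 1), ?_, ?_, ?_⟩
      · calc 2 = 2 ^ 1 := by norm_num
          _ ≤ 2 ^ (v + 1) := Nat.pow_le_pow_right (by norm_num) (by omega)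
      · have : 2 ^ (v + 1) ≤ m := by
          rw [hmv, pow_succ]
          exact Nat.mul_le_mul_left _ (by omega)
        exact_mod_cast this
      · refine sondow_two_pow (v := v) (m := (r : ℤ)) ?_ ?_
        · exact_mod_cast hr
        · rw [hmv]; push_cast; rfl
  · -- μ + 1 composite
    obtain ⟨p, hp, hpd⟩ := Nat.exists_prime_and_dvd (show m + 1 ≠ 1 by omega)
    refine ⟨p, hp.two_le, ?_, sondow_prime hp (by exact_mod_cast hpd)⟩
    have h1 : p ≤ m + 1 := Nat.le_of_dvd (by omega) hpd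
    have h2 : p ≠ m + 1 := by
      rintro rfl
      exact hprime hp
    have h3 : p ≤ m := by omega
    exact_mod_cast h3

end Pool.Agent.Results.MP_f2d551_nt.UpToFermatPrimes
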